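import Pool.Agent.Helper73.Dil.Rat

open Topology Set Filter MeasureTheory Metric

namespace Pool.Agent.Helper73.Dil

universe u

open DilationSurface

namespace Torus

theorem tc_I (z : ℂ) : tc Complex.I z = z := by
  rw [tc, mul_comm]
  exact Complex.re_add_im z

theorem tc_I_image : tc Complex.I '' B1 = B1 := by
  have : tc Complex.I = id := funext tc_I
  rw [this, image_id]

/-- a holomorphic function whose real part is locally constant has zero derivative -/
theorem deriv_eq_zero_of_re {g : ℂ → ℂ} {g' z0 : ℂ} {k : ℝ} (hg : HasDerivAt g g' z0)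
    (h : ∀ᶠ z in 𝓝 z0, (g z).re = k) : g' = 0 := by
  have h1 := Complex.reCLM.hasFDerivAt.comp z0 (hg.hasFDerivAt.restrictScalars ℝ)
  have h2 : HasFDerivAt (Complex.reCLM ∘ g) (0 : ℂ →L[ℝ] ℝ) z0 :=
    (hasFDerivAt_const k z0).congr_of_eventuallyEq h
  have h3 := h1.unique h2
  have h4 := congrArg (fun L : ℂ →L[ℝ] ℝ => L ((starRingEnd ℂ) g')) h3
  have h5 : ((starRingEnd ℂ) g' * g').re = 0 := by simpa using h4
  rw [mul_comm, Complex.mul_conj] at h5
  have h6 : Complex.normSq g' = 0 := by simpa using h5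
  exact Complex.normSq_eq_zero.1 h6

section
variable {X : Type u} [TopologicalSpace X]

/-- local holomorphic potentials -/
structure Pot (D : DilationSurface X) (S : D.Scale) (f : X → ℝ)
    (w : OpenPartialHomeomorph X ℂ → ℂ → ℂ) : Prop where
  diff : ∀ b, D.IsBall b → DifferentiableOn ℂ (w b) B1
  re : ∀ b, D.IsBall b → ∀ z ∈ B1, S.u b (b.symm z) + f (b.symm z) = (w b z).re

theorem mem_B1 {D : DilationSurface X} {b : OpenPartialHomeomorph X ℂ} (hb : D.IsBall b) {x : X}
    (hx : x ∈ b.source) : b x ∈ B1 := by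
  rw [← hb.2]; exact b.map_source hx

theorem symm_mem {D : DilationSurface X} {b : OpenPartialHomeomorph X ℂ} (hb : D.IsBall b) {z : ℂ}
    (hz : z ∈ B1) : b.symm z ∈ b.source := b.map_target (by rw [hb.2]; exact hz)

theorem right_inv {D : DilationSurface X} {b : OpenPartialHomeomorph X ℂ} (hb : D.IsBall b) {z : ℂ}
    (hz : z ∈ B1) : b (b.symm z) = z := b.right_inv (by rw [hb.2]; exact hz)

theorem B1_open : IsOpen B1 := isOpen_ball

variable {D : DilationSurface X} {S : D.Scale} {f : X → ℝ}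
  {w : OpenPartialHomeomorph X ℂ → ℂ → ℂ}

theorem pot_trans (hw : Pot D S f w) {b b' : OpenPartialHomeomorph X ℂ} (hb : D.IsBall b)
    (hb' : D.IsBall b') {x : X} (hx : x ∈ b.source) (hx' : x ∈ b'.source) {a : ℝ} {β : ℂ}
    (ha : a ≠ 0) (h : ∀ᶠ y in 𝓝 x, b' y = a * b y + β) :
    a * deriv (w b') (b' x) = deriv (w b) (b x) ∧
      (w b' (b' x)).re = (w b (b x)).re + Real.log |a| := by
  have hxb : b' x = a * b x + β := h.self_of_nhds
  have key : ∀ᶠ y in 𝓝 x, (w b' (b' y)).re = (w b (b y)).re + Real.log |a| := by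
    filter_upwards [h.eventually_nhds, b.open_source.mem_nhds hx, b'.open_source.mem_nhds hx']
      with y hy hyb hyb'
    have h1 := S.trans b b' hb.1 hb'.1 y hyb hyb' |a| ⟨a, β, ha, rfl, hy⟩
    have h2 := hw.re b hb (b y) (mem_B1 hb hyb)
    have h3 := hw.re b' hb' (b' y) (mem_B1 hb' hyb')
    rw [b.left_inv hyb] at h2
    rw [b'.left_inv hyb'] at h3
    rw [← h3, ← h2, h1]; ring
  refine ⟨?_, key.self_of_nhds⟩
  have hd1 : HasDerivAt (w b) (deriv (w b) (b x)) (b x) :=
    ((hw.diff b hb).differentiableAt (B1_open.mem_nhds (mem_B1 hb hx))).hasDerivAt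
  have hd2 : HasDerivAt (w b') (deriv (w b') (b' x)) (a * b x + β) := by
    rw [← hxb]
    exact ((hw.diff b' hb').differentiableAt (B1_open.mem_nhds (mem_B1 hb' hx'))).hasDerivAt
  have hd3 : HasDerivAt (fun z : ℂ => (a : ℂ) * z + β) (a : ℂ) (b x) := by
    simpa using ((hasDerivAt_id (b x)).const_mul (a : ℂ)).add_const β
  have hd4 := (hd2.comp (b x) hd3).sub hd1
  have hsymm : Tendsto b.symm (𝓝 (b x)) (𝓝 x) := by
    have := b.symm.continuousAt (x := b x) (by simpa using b.map_source hx)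
    have h3 := this.tendsto
    rwa [b.left_inv hx] at h3
  have hev : ∀ᶠ z in 𝓝 (b x), (((w b' ∘ fun z : ℂ => (a : ℂ) * z + β) - w b) z).re
      = Real.log |a| := by
    filter_upwards [hsymm.eventually key, hsymm.eventually h,
      b.open_target.mem_nhds (b.map_source hx)] with z hz1 hz2 hz3
    rw [b.right_inv hz3] at hz1 hz2
    rw [hz2] at hz1
    simp only [Pi.sub_apply, Function.comp_apply, Complex.sub_re]
    rw [hz1]; ring
  have := deriv_eq_zero_of_re hd4 hev
  linear_combination this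

/-- derivative of the exponential of the potential -/
noncomputable def HH (w : OpenPartialHomeomorph X ℂ → ℂ → ℂ) (b : OpenPartialHomeomorph X ℂ)
    (z : ℂ) : ℂ := deriv (w b) z * Complex.exp (w b z)

theorem HH_trans (hw : Pot D S f w) {b b' : OpenPartialHomeomorph X ℂ} (hb : D.IsBall b)
    (hb' : D.IsBall b') {x : X} (hx : x ∈ b.source) (hx' : x ∈ b'.source) :
    ‖HH w b' (b' x)‖ = ‖HH w b (b x)‖ := by
  obtain ⟨r, a, β, ha, -, h⟩ := isChart_dil hb.1 hb'.1 hx hx'
  obtain ⟨h1, h2⟩ := pot_trans hw hb hb' hx hx' ha h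
  rw [HH, HH, norm_mul, norm_mul, Complex.norm_exp, Complex.norm_exp, h2, ← h1, norm_mul,
    Complex.norm_real, Real.norm_eq_abs, Real.exp_add, Real.exp_log (abs_pos.2 ha)]
  ring

theorem HH_diff (hw : Pot D S f w) {b : OpenPartialHomeomorph X ℂ} (hb : D.IsBall b) :
    DifferentiableOn ℂ (HH w b) B1 :=
  ((hw.diff b hb).deriv B1_open).mul (hw.diff b hb).cexp

theorem HH_const [CompactSpace X] [ConnectedSpace X] (hw : Pot D S f w) (hc : D.cone = ∅) :
    ∃ M : ℝ, ∀ b, D.IsBall b → ∃ κ : ℂ, ‖κ‖ = M ∧ ∀ z ∈ B1, HH w b z = κ := by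
  have hball : ∀ x : X, ∃ b, D.IsBall b ∧ x ∈ b.source := by
    intro x
    obtain ⟨b, h1, h2, -⟩ := sb_BALL X D x (by rw [hc]; simp) univ univ_mem
    exact ⟨b, h1, h2⟩
  choose B hB hxB using hball
  have hF : ∀ x b, D.IsBall b → x ∈ b.source → ‖HH w (B x) (B x x)‖ = ‖HH w b (b x)‖ :=
    fun x b hb hx => HH_trans hw hb (hB x) hx (hxB x)
  set F : X → ℝ := fun x => ‖HH w (B x) (B x x)‖ with hFdef
  have hFb : ∀ x b, D.IsBall b → x ∈ b.source → F x = ‖HH w b (b x)‖ := hF
  have hFc : Continuous F := by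
    rw [continuous_iff_continuousAt]
    intro x
    have h1 : F =ᶠ[𝓝 x] fun y => ‖HH w (B x) (B x y)‖ := by
      filter_upwards [(B x).open_source.mem_nhds (hxB x)] with y hy
      exact hFb y _ (hB x) hy
    refine ContinuousAt.congr ?_ h1.symm
    refine ContinuousAt.norm ?_
    have h2 : ContinuousAt (HH w (B x)) (B x x) :=
      ((HH_diff hw (hB x)).continuousOn).continuousAt (B1_open.mem_nhds (mem_B1 (hB x) (hxB x)))
    exact ContinuousAt.comp (f := B x) h2 ((B x).continuousAt (hxB x))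
  obtain ⟨x0, -, hx0⟩ := isCompact_univ.exists_isMaxOn (univ_nonempty (α := X)) hFc.continuousOn
  have hmax : ∀ x, F x ≤ F x0 := fun x => hx0 (mem_univ x)
  have hclopen : IsClopen {x | F x = F x0} := by
    refine ⟨isClosed_eq hFc continuous_const, ?_⟩
    rw [isOpen_iff_mem_nhds]
    intro x hx
    have hxs := mem_B1 (hB x) (hxB x)
    have h1 : ∀ᶠ z in 𝓝 (B x x), DifferentiableAt ℂ (HH w (B x)) z := by
      filter_upwards [B1_open.mem_nhds hxs] with z hz
      exact (HH_diff hw (hB x)).differentiableAt (B1_open.mem_nhds hz)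
    have h2 : IsLocalMax (norm ∘ HH w (B x)) (B x x) := by
      filter_upwards [B1_open.mem_nhds hxs] with z hz
      simp only [Function.comp_apply]
      have h3 := hFb _ _ (hB x) (symm_mem (hB x) hz)
      rw [right_inv (hB x) hz] at h3
      rw [← h3, ← hFb x _ (hB x) (hxB x), hx]
      exact hmax _
    have h3 := Complex.eventually_eq_of_isLocalMax_norm h1 h2
    have h4 := ((B x).continuousAt (hxB x)).eventually h3
    filter_upwards [h4, (B x).open_source.mem_nhds (hxB x)] with y hy hys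
    show F y = F x0
    rw [hFb y _ (hB x) hys, hy, ← hFb x _ (hB x) (hxB x)]
    exact hx
  have huniv := hclopen.eq_univ ⟨x0, rfl⟩
  have hall : ∀ x, F x = F x0 := fun x => by
    have : x ∈ {x | F x = F x0} := by rw [huniv]; trivial
    exact this
  refine ⟨F x0, fun b hb => ?_⟩
  have hnorm : ∀ z ∈ B1, ‖HH w b z‖ = F x0 := by
    intro z hz
    have h3 := hFb _ _ hb (symm_mem hb hz)
    rw [right_inv hb hz] at h3
    rw [← h3, hall]
  have h0 : (0 : ℂ) ∈ B1 := by simp [B1]
  refine ⟨HH w b 0, hnorm 0 h0, fun z hz => ?_⟩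
  have hpre : IsPreconnected B1 := (convex_ball (0 : ℂ) 1).isPreconnected
  have := Complex.eqOn_of_isPreconnected_of_isMaxOn_norm hpre B1_open (HH_diff hw hb) h0
    (fun y hy => by show ‖HH w b y‖ ≤ ‖HH w b 0‖; rw [hnorm y hy, hnorm 0 h0])
  exact this hz

/-- linear structure of the charts -/
structure Lin (D : DilationSurface X) (ζ : OpenPartialHomeomorph X ℂ → ℂ) : Prop where
  ne : ∀ b, D.IsBall b → ∀ z ∈ B1, z - ζ b ≠ 0
  tr : ∀ b b', D.IsBall b → D.IsBall b' → ∀ x ∈ b.source, x ∈ b'.source → ∀ (a : ℝ) (β : ℂ),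
    a ≠ 0 → (∀ᶠ y in 𝓝 x, b' y = a * b y + β) → b' x - ζ b' = a * (b x - ζ b)

theorem exists_lin [CompactSpace X] [ConnectedSpace X] (hw : Pot D S f w) (hc : D.cone = ∅)
    (hne : ∃ b, D.IsBall b ∧ ∃ z ∈ B1, deriv (w b) z ≠ 0) : ∃ ζ, Lin D ζ := by
  obtain ⟨M, hM⟩ := HH_const hw hc
  have hM0 : M ≠ 0 := by
    obtain ⟨b, hb, z, hz, hd⟩ := hne
    obtain ⟨κ, h1, h2⟩ := hM b hb
    rw [← h1, ← h2 z hz, HH, norm_ne_zero_iff]
    exact mul_ne_zero hd (Complex.exp_ne_zero _)
  have hex : ∀ b, D.IsBall b → ∃ ζ : ℂ, ∀ z ∈ B1, deriv (w b) z * (z - ζ) = 1 := by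
    intro b hb
    obtain ⟨κ, h1, h2⟩ := hM b hb
    have hκ : κ ≠ 0 := by
      rw [← norm_ne_zero_iff, h1]; exact hM0
    have h0 : (0 : ℂ) ∈ B1 := by simp [B1]
    have hpre : IsPreconnected B1 := (convex_ball (0 : ℂ) 1).isPreconnected
    have hder : ∀ z ∈ B1, HasDerivAt (fun z => Complex.exp (w b z) - κ * z) 0 z := by
      intro z hz
      have hd1 : HasDerivAt (w b) (deriv (w b) z) z :=
        ((hw.diff b hb).differentiableAt (B1_open.mem_nhds hz)).hasDerivAt
      have hd2 := hd1.cexp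
      have hd3 : HasDerivAt (fun z : ℂ => κ * z) κ z := by
        simpa using (hasDerivAt_id z).const_mul κ
      have hd4 := hd2.sub hd3
      have h3 := h2 z hz
      rw [HH] at h3
      have h5 : Complex.exp (w b z) * deriv (w b) z - κ = 0 := by
        rw [mul_comm, h3, sub_self]
      rw [h5] at hd4
      exact hd4
    have hconst : ∀ z ∈ B1, Complex.exp (w b z) - κ * z = Complex.exp (w b 0) - κ * 0 := by
      intro z hz
      exact B1_open.is_const_of_deriv_eq_zero hpre
        (fun y hy => (hder y hy).differentiableAt.differentiableWithinAt)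
        (fun y hy => (hder y hy).deriv) hz h0
    refine ⟨-(Complex.exp (w b 0) / κ), fun z hz => ?_⟩
    have h3 := h2 z hz
    rw [HH] at h3
    have h4 : Complex.exp (w b z) = κ * (z - -(Complex.exp (w b 0) / κ)) := by
      have h5 := hconst z hz
      field_simp
      linear_combination h5
    rw [h4] at h3
    have h6 : κ * (deriv (w b) z * (z - -(Complex.exp (w b 0) / κ))) = κ * 1 := by
      linear_combination h3
    exact mul_left_cancel₀ hκ h6
  classical
  refine ⟨fun b => if hb : D.IsBall b then (hex b hb).choose else 0, ?_, ?_⟩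
  · intro b hb z hz
    simp only [dif_pos hb]
    have := (hex b hb).choose_spec z hz
    exact right_ne_zero_of_mul (a := deriv (w b) z) (by rw [this]; exact one_ne_zero)
  · intro b b' hb hb' x hx hx' a β ha h
    simp only [dif_pos hb, dif_pos hb']
    have h1 := (hex b hb).choose_spec _ (mem_B1 hb hx)
    have h2 := (hex b' hb').choose_spec _ (mem_B1 hb' hx')
    have h3 := (pot_trans hw hb hb' hx hx' ha h).1
    set u := b x - (hex b hb).choose
    set u' := b' x - (hex b' hb').choose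
    rw [← h3] at h1
    have hd : deriv (w b') (b' x) ≠ 0 :=
      left_ne_zero_of_mul (b := u') (by rw [h2]; exact one_ne_zero)
    apply mul_left_cancel₀ hd
    rw [h2, ← h1]; ring

/-! ### construction of the affine maps -/

variable {ζ : OpenPartialHomeomorph X ℂ → ℂ}

/-- `y` is the image of `x` under the local affine map with linear part `γ` -/
def Rel (D : DilationSurface X) (ζ : OpenPartialHomeomorph X ℂ → ℂ) (γ : G) (x y : X) : Prop :=
  ∃ b, D.IsBall b ∧ x ∈ b.source ∧ y ∈ b.source ∧ b y - ζ b = lin γ (b x - ζ b)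

theorem rel_symm {γ : G} {x y : X} (h : Rel D ζ γ x y) : Rel D ζ γ⁻¹ y x := by
  obtain ⟨b, hb, hx, hy, h⟩ := h
  refine ⟨b, hb, hy, hx, ?_⟩
  rw [h, ← lin_mul, inv_mul_cancel, lin_one]

theorem rel_unique [T2Space X] (hL : Lin D ζ) {γ : G} {x y y' : X} (h : Rel D ζ γ x y)
    (h' : Rel D ζ γ x y') : y = y' := by
  obtain ⟨b, hb, hx, hy, h⟩ := h
  obtain ⟨b', hb', hx', hy', h'⟩ := h'
  obtain ⟨r, a, β, ha, -, hab⟩ := isChart_dil hb.1 hb'.1 hx hx'
  have htr := hL.tr b b' hb hb' x hx hx' a β ha hab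
  have hac : (a : ℂ) ≠ 0 := by exact_mod_cast ha
  let z : unitInterval → ℂ := fun s => (1 - (s : ℝ) : ℝ) * b x + ((s : ℝ) : ℂ) * b y
  let z' : unitInterval → ℂ := fun s => (1 - (s : ℝ) : ℝ) * b' x + ((s : ℝ) : ℂ) * b' y'
  have hzc : Continuous z := by fun_prop
  have hzc' : Continuous z' := by fun_prop
  have hconv : ∀ (p q : ℂ) (s : unitInterval), p ∈ B1 → q ∈ B1 →
      ((1 - (s : ℝ) : ℝ) : ℂ) * p + ((s : ℝ) : ℂ) * q ∈ B1 := by
    intro p q s hp hq
    have := (convex_ball (0 : ℂ) 1) hp hq (a := 1 - (s : ℝ)) (b := (s : ℝ))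
      (by linarith [s.2.2]) s.2.1 (by ring)
    simpa [B1] using this
  have hz : ∀ s, z s ∈ B1 := fun s => hconv _ _ s (mem_B1 hb hx) (mem_B1 hb hy)
  have hz' : ∀ s, z' s ∈ B1 := fun s => hconv _ _ s (mem_B1 hb' hx') (mem_B1 hb' hy')
  have hzz : ∀ s, z' s - ζ b' = a * (z s - ζ b) := by
    intro s
    have e1 : b' y' = a * (b y - ζ b) + ζ b' := by
      have : b' y' - ζ b' = a * (b y - ζ b) := by
        rw [h', htr, lin_smul, h]
      linear_combination this
    have e2 : b' x = a * (b x - ζ b) + ζ b' := by linear_combination htr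
    show ((1 - (s : ℝ) : ℝ) : ℂ) * b' x + ((s : ℝ) : ℂ) * b' y' - ζ b'
      = a * (((1 - (s : ℝ) : ℝ) : ℂ) * b x + ((s : ℝ) : ℂ) * b y - ζ b)
    rw [e1, e2]
    push_cast
    ring
  have hg : Continuous fun s => b.symm (z s) :=
    b.symm.continuousOn.comp_continuous hzc (fun s => by
      rw [OpenPartialHomeomorph.symm_source, hb.2]; exact hz s)
  have hg' : Continuous fun s => b'.symm (z' s) :=
    b'.symm.continuousOn.comp_continuous hzc' (fun s => by
      rw [OpenPartialHomeomorph.symm_source, hb'.2]; exact hz' s)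
  have hclopen : IsClopen {s | b.symm (z s) = b'.symm (z' s)} := by
    refine ⟨isClosed_eq hg hg', ?_⟩
    rw [isOpen_iff_mem_nhds]
    intro s hs
    have hs' : b.symm (z s) = b'.symm (z' s) := hs
    have hy0 : b.symm (z s) ∈ b.source := symm_mem hb (hz s)
    have hy0' : b.symm (z s) ∈ b'.source := by rw [hs']; exact symm_mem hb' (hz' s)
    obtain ⟨r1, a1, β1, ha1, -, h1⟩ := isChart_dil hb.1 hb'.1 hy0 hy0'
    have h2 := hL.tr b b' hb hb' _ hy0 hy0' a1 β1 ha1 h1
    have h3 := h1.self_of_nhds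
    have e1 : b (b.symm (z s)) = z s := right_inv hb (hz s)
    have e2 : b' (b.symm (z s)) = z' s := by rw [hs']; exact right_inv hb' (hz' s)
    rw [e1, e2] at h2 h3
    have e3 : (a1 : ℂ) = a := by
      have := hzz s
      rw [h2] at this
      exact mul_right_cancel₀ (hL.ne b hb _ (hz s)) this
    have e4 : β1 = ζ b' - a * ζ b := by
      have := hzz s
      rw [e3] at h3
      linear_combination this - h3
    have h5 : ∀ᶠ t in 𝓝 s, b' (b.symm (z t)) = a1 * b (b.symm (z t)) + β1 :=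
      hg.continuousAt.eventually h1
    have h6 : ∀ᶠ t in 𝓝 s, b.symm (z t) ∈ b'.source :=
      hg.continuousAt.eventually (b'.open_source.mem_nhds hy0')
    filter_upwards [h5, h6] with t ht1 ht2
    show b.symm (z t) = b'.symm (z' t)
    rw [right_inv hb (hz t), e3, e4] at ht1
    have e5 : z' t = b' (b.symm (z t)) := by
      rw [ht1]
      linear_combination hzz t
    rw [e5, b'.left_inv ht2]
  have h0 : (0 : unitInterval) ∈ {s | b.symm (z s) = b'.symm (z' s)} := by
    show b.symm (z 0) = b'.symm (z' 0)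
    have e1 : z 0 = b x := by simp [z]
    have e2 : z' 0 = b' x := by simp [z']
    rw [e1, e2, b.left_inv hx, b'.left_inv hx']
  have h1 : (1 : unitInterval) ∈ {s | b.symm (z s) = b'.symm (z' s)} := by
    rw [hclopen.eq_univ ⟨0, h0⟩]; trivial
  have h2 : b.symm (z 1) = b'.symm (z' 1) := h1
  have e1 : z 1 = b y := by simp [z]
  have e2 : z' 1 = b' y' := by simp [z']
  rwa [e1, e2, b.left_inv hy, b'.left_inv hy'] at h2

theorem continuous_lin2 : Continuous (fun p : G × ℂ => lin p.1 p.2) := by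
  have h : (fun p : G × ℂ => lin p.1 p.2) = fun p : G × ℂ =>
      ((p.1.1 0 0 * p.2.re + p.1.1 0 1 * p.2.im : ℝ) : ℂ)
      + ((p.1.1 1 0 * p.2.re + p.1.1 1 1 * p.2.im : ℝ) : ℂ) * Complex.I := by
    funext z
    apply Complex.ext <;> simp [lin]
  have he0 : ∀ i j, Continuous fun g : G => g.1 i j := fun i j =>
    (continuous_apply_apply i j).comp continuous_induced_dom
  have he : ∀ i j, Continuous fun p : G × ℂ => p.1.1 i j := fun i j =>
    (he0 i j).comp continuous_fst
  have hr : Continuous fun p : G × ℂ => p.2.re := Complex.continuous_re.comp continuous_snd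
  have hi : Continuous fun p : G × ℂ => p.2.im := Complex.continuous_im.comp continuous_snd
  rw [h]
  exact (Complex.continuous_ofReal.comp (((he 0 0).mul hr).add ((he 0 1).mul hi))).add
    ((Complex.continuous_ofReal.comp (((he 1 0).mul hr).add ((he 1 1).mul hi))).mul
      continuous_const)

/-- the local expression of the affine map -/
theorem eventually_rel {γ : G} {x y : X} {b : OpenPartialHomeomorph X ℂ} (hb : D.IsBall b)
    (hx : x ∈ b.source) (hy : y ∈ b.source) (h : b y - ζ b = lin γ (b x - ζ b)) :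
    ∀ᶠ p : G × X in 𝓝 (γ, x), p.2 ∈ b.source ∧ ζ b + lin p.1 (b p.2 - ζ b) ∈ B1 ∧
      Rel D ζ p.1 p.2 (b.symm (ζ b + lin p.1 (b p.2 - ζ b))) := by
  have h1 : ContinuousAt (fun p : G × X => ζ b + lin p.1 (b p.2 - ζ b)) (γ, x) := by
    have h2 : ContinuousAt (fun p : G × X => (p.1, b p.2 - ζ b)) (γ, x) := by
      refine ContinuousAt.prodMk continuousAt_fst (ContinuousAt.sub ?_ continuousAt_const)
      exact ContinuousAt.comp (f := Prod.snd) (g := b) (b.continuousAt hx) continuousAt_snd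
    exact continuousAt_const.add
      (ContinuousAt.comp (f := fun p : G × X => (p.1, b p.2 - ζ b))
        (g := fun p : G × ℂ => lin p.1 p.2) continuous_lin2.continuousAt h2)
  have h3 : ζ b + lin γ (b x - ζ b) ∈ B1 := by
    rw [← h, add_sub_cancel]; exact mem_B1 hb hy
  have h4 : ∀ᶠ p : G × X in 𝓝 (γ, x), ζ b + lin p.1 (b p.2 - ζ b) ∈ B1 :=
    h1.eventually (B1_open.mem_nhds h3)
  have h5 : ∀ᶠ p : G × X in 𝓝 (γ, x), p.2 ∈ b.source :=
    continuousAt_snd.eventually (b.open_source.mem_nhds hx)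
  filter_upwards [h4, h5] with p hp1 hp2
  refine ⟨hp2, hp1, b, hb, hp2, symm_mem hb hp1, ?_⟩
  rw [right_inv hb hp1]; ring

theorem rel_exists [CompactSpace X] (hc : D.cone = ∅) :
    ∀ᶠ γ in 𝓝 (1 : G), ∀ x, ∃ y, Rel D ζ γ x y := by
  have h := isCompact_univ.eventually_forall_of_forall_eventually (x₀ := (1 : G)) (K := (univ : Set X))
    (P := fun γ x => ∃ y, Rel D ζ γ x y) (by
      intro x _
      obtain ⟨b, hb, hxb, -⟩ := sb_BALL X D x (by rw [hc]; simp) univ univ_mem
      have := eventually_rel (D := D) (ζ := ζ) (γ := 1) hb hxb hxb (by rw [lin_one])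
      filter_upwards [this] with p hp
      exact ⟨_, hp.2.2⟩)
  filter_upwards [h] with γ hγ x
  exact hγ x (mem_univ x)

theorem rel_continuous [T2Space X] (hL : Lin D ζ) {γ : G} {φ : X → X}
    (h : ∀ x, Rel D ζ γ x (φ x)) : Continuous φ := by
  rw [continuous_iff_continuousAt]
  intro x
  obtain ⟨b, hb, hx, hy, hxy⟩ := h x
  have h1 := eventually_rel hb hx hy hxy
  have h2 : Tendsto (fun y : X => (γ, y)) (𝓝 x) (𝓝 (γ, x)) :=
    (Continuous.prodMk_right γ).continuousAt
  have h3 := h2.eventually h1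
  have h4 : φ =ᶠ[𝓝 x] fun y => b.symm (ζ b + lin γ (b y - ζ b)) := by
    filter_upwards [h3] with y hy
    exact rel_unique hL (h y) hy.2.2
  refine ContinuousAt.congr ?_ h4.symm
  have h5 : ζ b + lin γ (b x - ζ b) ∈ b.symm.source := by
    rw [← hxy, add_sub_cancel, OpenPartialHomeomorph.symm_source]; exact b.map_source hy
  have h6 : ContinuousAt (fun y => ζ b + lin γ (b y - ζ b)) x := by
    refine continuousAt_const.add ?_
    exact ContinuousAt.comp (f := fun y => b y - ζ b) (g := lin γ) (lin_continuous γ).continuousAt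
      ((b.continuousAt hx).sub continuousAt_const)
  exact ContinuousAt.comp (f := fun y => ζ b + lin γ (b y - ζ b)) (g := b.symm)
    (b.symm.continuousAt h5) h6

theorem mem_veech [T2Space X] (hL : Lin D ζ) (hc : D.cone = ∅) {γ : G}
    (h1 : ∀ x, ∃ y, Rel D ζ γ x y) (h2 : ∀ x, ∃ y, Rel D ζ γ⁻¹ x y) : γ ∈ D.VeechGroup := by
  choose φ hφ using h1
  choose ψ hψ using h2
  refine ⟨⟨⟨φ, ψ, fun x => ?_, fun x => ?_⟩, rel_continuous hL hφ, rel_continuous hL hψ⟩,
    fun x => by rw [hc]; simp, ?_⟩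
  · exact rel_unique hL (hψ (φ x)) (rel_symm (hφ x))
  · refine rel_unique hL (hφ (ψ x)) ?_
    have := rel_symm (hψ x)
    rwa [inv_inv] at this
  · intro x _ e he hxe e' he' hxe'
    show ∃ (c : ℝ) (b : ℂ), c ≠ 0 ∧ ∀ᶠ y in 𝓝 x, e' (φ y) = c * lin γ (e y) + b
    have hxe'' : φ x ∈ e'.source := hxe'
    obtain ⟨b, hb, hx, hy, hxy⟩ := hφ x
    obtain ⟨r1, a1, β1, ha1, -, h1⟩ := isChart_dil (isChart_of_atlas he) hb.1 hxe hx
    obtain ⟨r2, a2, β2, ha2, -, h2⟩ := isChart_dil hb.1 (isChart_of_atlas he') hy hxe''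
    refine ⟨a2 * a1, a2 * (ζ b + lin γ (β1 - ζ b)) + β2, mul_ne_zero ha2 ha1, ?_⟩
    have h3 := eventually_rel hb hx hy hxy
    have h4 : Tendsto (fun y : X => (γ, y)) (𝓝 x) (𝓝 (γ, x)) :=
      (Continuous.prodMk_right γ).continuousAt
    have h5 := h4.eventually h3
    have h6 := (rel_continuous hL hφ).continuousAt.eventually h2
    filter_upwards [h1, h5, h6] with y hy1 hy2 hy3
    have e1 : φ y = b.symm (ζ b + lin γ (b y - ζ b)) := rel_unique hL (hφ y) hy2.2.2
    have e2 : b (φ y) = ζ b + lin γ (b y - ζ b) := by rw [e1, right_inv hb hy2.2.1]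
    have e3 : b y - ζ b = a1 * e y + (β1 - ζ b) := by rw [hy1]; ring
    rw [hy3, e2, e3, lin_add, lin_smul]
    push_cast
    ring

/-- unipotent matrices -/
def uni (s : ℝ) : G := ⟨!![1, s; 0, 1], by rw [Matrix.det_fin_two_of]; ring⟩

theorem uni_continuous : Continuous uni := by
  refine Continuous.subtype_mk ?_ _
  refine continuous_matrix ?_
  intro i j
  fin_cases i <;> fin_cases j <;> simp <;> fun_prop

theorem not_discrete [T2Space X] [CompactSpace X] (hL : Lin D ζ) (hc : D.cone = ∅) :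
    ¬ DiscreteTopology D.VeechGroup := by
  intro hd
  have h1 : ∀ᶠ γ in 𝓝 (1 : G), γ ∈ D.VeechGroup := by
    have h2 := rel_exists (D := D) (ζ := ζ) hc
    have h3 : Tendsto (fun γ : G => γ⁻¹) (𝓝 1) (𝓝 1) := by
      have := (continuous_inv (G := G)).tendsto 1
      rwa [inv_one] at this
    filter_upwards [h2, h3.eventually h2] with γ hγ1 hγ2
    exact mem_veech hL hc hγ1 hγ2
  have h2 : ∀ᶠ γ in 𝓝 (1 : G), γ ∈ D.VeechGroup → γ = 1 := by
    have h3 : ({1} : Set D.VeechGroup) ∈ 𝓝 (1 : D.VeechGroup) := by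
      exact (isOpen_discrete _).mem_nhds rfl
    rw [nhds_subtype_eq_comap, mem_comap] at h3
    obtain ⟨t, ht, hts⟩ := h3
    filter_upwards [ht] with γ hγ hγV
    have : (⟨γ, hγV⟩ : D.VeechGroup) ∈ ({1} : Set D.VeechGroup) := hts hγ
    have h4 : (⟨γ, hγV⟩ : D.VeechGroup) = 1 := this
    exact congrArg Subtype.val h4
  have h3 : ∀ᶠ γ in 𝓝 (1 : G), γ = 1 := by
    filter_upwards [h1, h2] with γ hγ1 hγ2 using hγ2 hγ1
  have hu0 : uni 0 = 1 := by
    apply Subtype.ext
    show !![(1 : ℝ), 0; 0, 1] = 1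
    ext i j
    fin_cases i <;> fin_cases j <;> simp
  have h4 : ∀ᶠ s in 𝓝 (0 : ℝ), uni s = 1 := by
    have := uni_continuous.tendsto 0
    rw [hu0] at this
    exact this.eventually h3
  have h5 : ∀ᶠ s in 𝓝[≠] (0 : ℝ), uni s = 1 ∧ s ≠ 0 :=
    (h4.filter_mono nhdsWithin_le_nhds).and self_mem_nhdsWithin
  obtain ⟨s, hs1, hs2⟩ := h5.exists
  apply hs2
  have h6 : (uni s).1 0 1 = (1 : G).1 0 1 := by rw [hs1]
  simpa [uni] using h6

end

end Torus

open Torus in
theorem sb_TORUS (hLOCL : SB_LOCL.{u}) : SB_TORUS.{u} := by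
  intro X _ _ _ _ _ _ D R S c f hc hsol hc0
  have hw : ∀ b, D.IsBall b → ∃ w : ℂ → ℂ, DifferentiableOn ℂ w B1 ∧
      (R.loc b c =ᵐ[volume.restrict B1] fun z => deriv w z) ∧
      ∀ z ∈ B1, S.u b (b.symm z) + f (b.symm z) = (w z).re := by
    intro b hb
    obtain ⟨w, h1, h2, h3⟩ := hsol b hb
    rw [tc_I_image] at h1
    simp only [tc_I] at h2 h3
    exact ⟨w, h1, h2, h3⟩
  classical
  let w : OpenPartialHomeomorph X ℂ → ℂ → ℂ := fun b =>
    if hb : D.IsBall b then (hw b hb).choose else 0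
  have hwb : ∀ b (hb : D.IsBall b), w b = (hw b hb).choose := fun b hb => dif_pos hb
  have hpot : Pot D S f w := by
    refine ⟨fun b hb => ?_, fun b hb => ?_⟩
    · rw [hwb b hb]; exact (hw b hb).choose_spec.1
    · rw [hwb b hb]; exact (hw b hb).choose_spec.2.2
  have hne : ∃ b, D.IsBall b ∧ ∃ z ∈ B1, deriv (w b) z ≠ 0 := by
    by_contra hcon
    push Not at hcon
    apply hc0
    have h1 : (c : X → ℂ) =ᵐ[R.mu] (fun _ => 0) := by
      refine (hLOCL X D R).2 c (fun _ => 0) fun b hb => ?_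
      have h2 := (hw b hb).choose_spec.2.1
      rw [← hwb b hb] at h2
      have h3 : ∀ᵐ z ∂(volume.restrict B1), z ∈ B1 := ae_restrict_mem measurableSet_ball
      filter_upwards [h2, h3] with z hz1 hz2
      rw [hz1, hcon b hb z hz2]
      simp [Ref.loc]
    exact (Lp.eq_zero_iff_ae_eq_zero).2 h1
  obtain ⟨ζ, hζ⟩ := exists_lin hpot hc hne
  exact not_discrete hζ hc

end Pool.Agent.Helper73.Dil
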